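import Pool.Agent.H82.RD.Targets
import Pool.Agent.H82.RD.Basic

/-!
# The chain argument of the zero lemma
-/

set_option autoImplicit false

open MvPolynomial

namespace Pool.Agent.H39.RD

open Pool.Agent.H82.RD

/-- the translates of `P` by sums of `j` elements of `S` -/
def FF {k : Type} [Field k] {u : ℕ} {ι : Type} (S : Finset ι) (w : ι → Fin u → k) (y : ι → k)
    (P : PR k u) (j : ℕ) : Set (PR k u) :=
  {f | ∃ g : Fin j → ι, (∀ i, g i ∈ S) ∧ f = tr (∑ i, w (g i)) (∏ i, y (g i)) P}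

/-- the primes which contain the translates and not `Y` -/
def Pr {k : Type} [Field k] {u : ℕ} {ι : Type} (S : Finset ι) (w : ι → Fin u → k) (y : ι → k)
    (P : PR k u) (j : ℕ) (p : Ideal (PR k u)) : Prop :=
  p.IsPrime ∧ FF S w y P j ⊆ (p : Set (PR k u)) ∧ (X none : PR k u) ∉ p

section

variable {k : Type} [Field k] {u : ℕ} {ι : Type} {S : Finset ι} {w : ι → Fin u → k} {y : ι → k}
  {P : PR k u} {s₀ : ι}

theorem FF_tr {s : ι} (hs : s ∈ S) {j : ℕ} {h : PR k u} (hh : h ∈ FF S w y P j) :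
    tr (w s) (y s) h ∈ FF S w y P (j + 1) := by
  obtain ⟨g, hg, rfl⟩ := hh
  refine ⟨Fin.cons s g, fun i => ?_, ?_⟩
  · refine Fin.cases ?_ (fun i => ?_) i
    · rw [Fin.cons_zero]; exact hs
    · rw [Fin.cons_succ]; exact hg i
  · rw [tr_tr, Fin.sum_univ_succ, Fin.prod_univ_succ]
    simp only [Fin.cons_zero, Fin.cons_succ]

theorem FF_succ (hs : s₀ ∈ S) (hw : w s₀ = 0) (hy : y s₀ = 1) (j : ℕ) :
    FF S w y P j ⊆ FF S w y P (j + 1) := by
  intro f hf
  have h := FF_tr hs hf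
  rwa [hw, hy, tr_id] at h

theorem FF_mono (hs : s₀ ∈ S) (hw : w s₀ = 0) (hy : y s₀ = 1) {i j : ℕ} (hij : i ≤ j) :
    FF S w y P i ⊆ FF S w y P j := by
  induction hij with
  | refl => exact subset_rfl
  | step _ ih => exact ih.trans (FF_succ hs hw hy _)

theorem mem_FF_zero : P ∈ FF S w y P 0 :=
  ⟨Fin.elim0, fun i => i.elim0, by simp [tr_id]⟩

theorem Pr_anti (hs : s₀ ∈ S) (hw : w s₀ = 0) (hy : y s₀ = 1) {i j : ℕ} (hij : i ≤ j)
    {p : Ideal (PR k u)} (h : Pr S w y P j p) : Pr S w y P i p :=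
  ⟨h.1, (FF_mono hs hw hy hij).trans h.2.1, h.2.2⟩

end

theorem pf_ZCH (hZSM : T_ZSM) (hZD0 : T_ZD0) (hZTV : T_ZTV) (hZTH : T_ZTH) : T_ZCH := by
  intro k _ u A B ι S w y P s₀ hP hPV hs₀ hw₀ hy₀ hy hev
  -- the point `(0, 1)`
  have hm : Pr S w y P (u + 1) (RingHom.ker (eval (fun o : Option (Fin u) =>
      o.elim (1 : k) (0 : Fin u → k)))) := by
    refine ⟨RingHom.ker_isPrime _, ?_, ?_⟩
    · rintro f ⟨g, hg, rfl⟩
      show eval _ _ = 0
      have h := ev_tr (0 : Fin u → k) (∑ i, w (g i)) 1 (∏ i, y (g i)) P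
      rw [zero_add, one_mul, hev g hg] at h
      exact h
    · intro h
      have h' : eval (fun o : Option (Fin u) => o.elim (1 : k) (0 : Fin u → k))
        (X none : PR k u) = 0 := h
      rw [eval_X] at h'
      exact one_ne_zero h'
  -- dimensions
  have hbot : (⊥ : Ideal (PR k u)).IsPrime := Ideal.isPrime_bot
  have hdm : ∀ p : Ideal (PR k u), p.IsPrime → dm p ≤ u + 1 := by
    intro p hp
    rcases eq_or_ne p ⊥ with rfl | hne
    · exact (hZD0 k u).le
    · have := hZSM k u ⊥ p hbot hp (bot_lt_iff_ne_bot.2 hne)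
      rw [hZD0 k u] at this
      exact this.le
  set D : ℕ → Set ℕ := fun j => {n | ∃ p, Pr S w y P j p ∧ dm p = n} with hD
  have hDb : ∀ j, BddAbove (D j) := by
    intro j
    refine ⟨u + 1, ?_⟩
    rintro n ⟨p, hp, rfl⟩
    exact hdm p hp.1
  have hDn : ∀ j, j ≤ u + 1 → (D j).Nonempty := fun j hj =>
    ⟨_, _, Pr_anti hs₀ hw₀ hy₀ hj hm, rfl⟩
  have hle : ∀ j p, Pr S w y P j p → dm p ≤ sSup (D j) := fun j p hp =>
    le_csSup (hDb j) ⟨p, hp, rfl⟩
  have hanti : ∀ j, j ≤ u → sSup (D (j + 1)) ≤ sSup (D j) := by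
    intro j hj
    obtain ⟨p, hp, hpe⟩ := Nat.sSup_mem (hDn (j + 1) (by omega)) (hDb (j + 1))
    rw [← hpe]
    exact hle j p (Pr_anti hs₀ hw₀ hy₀ (Nat.le_succ j) hp)
  have h0 : sSup (D 0) ≤ u := by
    obtain ⟨p, hp, hpe⟩ := Nat.sSup_mem (hDn 0 (by omega)) (hDb 0)
    rw [← hpe]
    have hPp : P ∈ p := hp.2.1 mem_FF_zero
    have hne : p ≠ ⊥ := by
      rintro rfl
      exact hP (Ideal.mem_bot.1 hPp)
    have := hZSM k u ⊥ p hbot hp.1 (bot_lt_iff_ne_bot.2 hne)
    rw [hZD0 k u] at this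
    omega
  obtain ⟨j, hj, hje⟩ : ∃ j, j ≤ u ∧ sSup (D (j + 1)) = sSup (D j) := by
    by_contra hcon
    push Not at hcon
    have key : ∀ j, j ≤ u + 1 → sSup (D j) + j ≤ u := by
      intro j
      induction j with
      | zero => intro _; simpa using h0
      | succ j ih =>
        intro hj
        have h1 := ih (by omega)
        have h2 := hanti j (by omega)
        have h3 := hcon j (by omega)
        omega
    have := key (u + 1) le_rfl
    omega
  obtain ⟨p, hp, hpe⟩ := Nat.sSup_mem (hDn (j + 1) (by omega)) (hDb (j + 1))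
  have hpP := hp.1
  refine ⟨p, FF S w y P j, hp.1, hp.2.2, ?_, ?_, ?_⟩
  · exact hp.2.1 (FF_mono hs₀ hw₀ hy₀ (Nat.zero_le _) mem_FF_zero)
  · rintro f ⟨g, hg, rfl⟩
    exact hZTV k u A B _ _ P hPV
  · intro s hs
    refine ⟨fun f hf => hp.2.1 (FF_tr hs hf), ?_⟩
    intro p' hp' hF hle'
    by_contra hne
    have hcp : (p.comap (tr (w s) (y s))).IsPrime := comap_tr_isPrime _ _ _
    have h1 := hZSM k u p' (p.comap (tr (w s) (y s))) hp' hcp (lt_of_le_of_ne hle' hne)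
    rw [(hZTH k u A B (w s) (y s) p (hy s hs)).1, hpe, hje] at h1
    have h2 : Pr S w y P j p' := by
      refine ⟨hp', hF, fun hX => hp.2.2 ?_⟩
      have h3 : tr (w s) (y s) (X none) ∈ p := hle' hX
      rw [tr_none] at h3
      rcases hpP.mem_or_mem h3 with h4 | h4
      · exfalso
        apply hpP.ne_top
        apply Ideal.eq_top_of_isUnit_mem p h4
        exact (isUnit_iff_ne_zero.2 (hy s hs)).map C
      · exact h4
    have h3 := hle j p' h2
    omega

end Pool.Agent.H39.RD
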